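import Pool.Agent.N566.VV.Defs

/-!
Project VV (helper566), part 1: state models, exchange of heights.
-/

set_option autoImplicit false
set_option linter.unusedSectionVars false
set_option linter.unreachableTactic false
set_option linter.unusedTactic false

namespace Pool.Agent.N738.VV

open Pool.Agent.H835R2.Knot
open Pool.Agent.N566.VV
open Finset

section
variable {ι : Type} [Fintype ι] [DecidableEq ι]

/-! ### states -/

theorem ins_ins {i j : ℕ} (h : i ≤ j) (x x' y y' : ι) (σ : ℕ → ι) :
    insS (j + 2) y y' (insS i x x' σ) = insS i x x' (insS j y y' σ) := by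
  funext p
  simp only [insS]
  split_ifs <;> first | rfl | (exfalso; omega) | (congr 1; omega)

theorem del_ins {i j : ℕ} (h : i ≤ j) (x x' : ι) (σ : ℕ → ι) :
    delS (j + 2) (insS i x x' σ) = insS i x x' (delS j σ) := by
  funext p
  simp only [insS, delS]
  split_ifs <;> first | rfl | (exfalso; omega) | (congr 1; omega)

theorem upd_ins {i j : ℕ} (h : i ≤ j) (x x' a b : ι) (σ : ℕ → ι) :
    updS (j + 2) a b (insS i x x' σ) = insS i x x' (updS j a b σ) := by
  funext p
  simp only [insS, updS]
  split_ifs <;> first | rfl | (exfalso; omega) | (congr 1; omega)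

theorem ins_del {i m : ℕ} (h : i ≤ m) (x x' : ι) (σ : ℕ → ι) :
    insS m x x' (delS i σ) = delS i (insS (m + 2) x x' σ) := by
  funext p
  simp only [insS, delS]
  split_ifs <;> first | rfl | (exfalso; omega) | (congr 1; omega)

theorem del_del {i m : ℕ} (h : i ≤ m) (σ : ℕ → ι) :
    delS m (delS i σ) = delS i (delS (m + 2) σ) := by
  funext p
  simp only [delS]
  split_ifs <;> first | rfl | (exfalso; omega) | (congr 1; omega)

theorem upd_del {i m : ℕ} (h : i ≤ m) (a b : ι) (σ : ℕ → ι) :
    updS m a b (delS i σ) = delS i (updS (m + 2) a b σ) := by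
  funext p
  simp only [updS, delS]
  split_ifs <;> first | rfl | (exfalso; omega) | (congr 1; omega)

theorem ins_upd {i j : ℕ} (h : i + 2 ≤ j) (x x' a b : ι) (σ : ℕ → ι) :
    insS j x x' (updS i a b σ) = updS i a b (insS j x x' σ) := by
  funext p
  simp only [updS, insS]
  split_ifs <;> first | rfl | (exfalso; omega) | (congr 1; omega)

theorem del_upd {i j : ℕ} (h : i + 2 ≤ j) (a b : ι) (σ : ℕ → ι) :
    delS j (updS i a b σ) = updS i a b (delS j σ) := by
  funext p
  simp only [updS, delS]
  split_ifs <;> first | rfl | (exfalso; omega) | (congr 1; omega)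

theorem upd_upd {i j : ℕ} (h : i + 2 ≤ j) (a b x y : ι) (σ : ℕ → ι) :
    updS j x y (updS i a b σ) = updS i a b (updS j x y σ) := by
  funext p
  simp only [updS]
  split_ifs <;> first | rfl | (exfalso; omega) | (congr 1; omega)

theorem insS_ge {i j : ℕ} (h : i ≤ j) (x x' : ι) (σ : ℕ → ι) : insS i x x' σ (j + 2) = σ j := by
  simp only [insS]
  rw [if_neg (by omega), if_neg (by omega), if_neg (by omega)]
  rfl

theorem insS_lt {i j : ℕ} (h : j < i) (x x' : ι) (σ : ℕ → ι) : insS i x x' σ j = σ j := by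
  simp only [insS]
  rw [if_pos h]

theorem delS_ge {i j : ℕ} (h : i ≤ j) (σ : ℕ → ι) : delS i σ j = σ (j + 2) := by
  simp only [delS]
  rw [if_neg (by omega)]

theorem delS_lt {i j : ℕ} (h : j < i) (σ : ℕ → ι) : delS i σ j = σ j := by
  simp only [delS]
  rw [if_pos h]

theorem updS_ne {i j : ℕ} (h1 : j ≠ i) (h2 : j ≠ i + 1) (x x' : ι) (σ : ℕ → ι) :
    updS i x x' σ j = σ j := by
  simp only [updS]
  rw [if_neg h1, if_neg h2]

/-! ### operators -/

theorem Bl_smul (T : Dat ι) (i : ℕ) (k : ℂ) (f : F ι) : Bl T i (k • f) = k • Bl T i f := by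
  funext σ
  simp only [Bl, Pi.smul_apply, smul_eq_mul, Finset.mul_sum]
  refine Finset.sum_congr rfl fun x _ => ?_
  ring

theorem Dl_smul (T : Dat ι) (i : ℕ) (k : ℂ) (f : F ι) : Dl T i (k • f) = k • Dl T i f := by
  funext σ
  simp only [Dl, Pi.smul_apply, smul_eq_mul]
  split_ifs
  · ring
  · ring

theorem Xl_smul (A : Matrix (ι × ι) (ι × ι) ℂ) (i : ℕ) (k : ℂ) (f : F ι) :
    Xl A i (k • f) = k • Xl A i f := by
  funext σ
  simp only [Xl, Pi.smul_apply, smul_eq_mul, Finset.mul_sum]
  refine Finset.sum_congr rfl fun x _ => ?_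
  ring

theorem BB (T : Dat ι) {i j : ℕ} (h : i ≤ j) (f : F ι) :
    Bl T i (Bl T (j + 2) f) = Bl T j (Bl T i f) := by
  funext σ
  simp only [Bl, Finset.mul_sum]
  rw [Finset.sum_comm]
  refine Finset.sum_congr rfl fun y _ => Finset.sum_congr rfl fun x _ => ?_
  rw [ins_ins h]
  ring

theorem BD (T : Dat ι) {i j : ℕ} (h : i ≤ j) (f : F ι) :
    Bl T i (Dl T (j + 2) f) = Dl T j (Bl T i f) := by
  funext σ
  simp only [Bl, Dl]
  have h1 : ∀ x x' : ι, insS i x x' σ (j + 2 + 1) = σ (j + 1) := fun x x' => by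
    rw [show j + 2 + 1 = (j + 1) + 2 by omega, insS_ge (by omega)]
  by_cases hc : σ (j + 1) = T.rev (σ j)
  · rw [if_pos hc, Finset.mul_sum]
    refine Finset.sum_congr rfl fun x _ => ?_
    rw [h1, insS_ge h, if_pos hc, del_ins h]
    ring
  · rw [if_neg hc]
    refine Finset.sum_eq_zero fun x _ => ?_
    rw [h1, insS_ge h, if_neg hc, mul_zero]

theorem BX (T : Dat ι) (A : Matrix (ι × ι) (ι × ι) ℂ) {i j : ℕ} (h : i ≤ j) (f : F ι) :
    Bl T i (Xl A (j + 2) f) = Xl A j (Bl T i f) := by
  funext σ
  simp only [Bl, Xl, Finset.mul_sum]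
  rw [Finset.sum_comm]
  refine Finset.sum_congr rfl fun y _ => Finset.sum_congr rfl fun x _ => ?_
  rw [upd_ins h, show j + 2 + 1 = (j + 1) + 2 by omega, insS_ge h, insS_ge (by omega : i ≤ j + 1)]
  ring

theorem DB (T : Dat ι) {i m : ℕ} (h : i ≤ m) (f : F ι) :
    Dl T i (Bl T m f) = Bl T (m + 2) (Dl T i f) := by
  funext σ
  simp only [Bl, Dl]
  by_cases hc : σ (i + 1) = T.rev (σ i)
  · rw [if_pos hc, Finset.mul_sum]
    refine Finset.sum_congr rfl fun x _ => ?_
    rw [insS_lt (by omega : i + 1 < m + 2), insS_lt (by omega : i < m + 2), if_pos hc, ins_del h]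
    ring
  · rw [if_neg hc]
    symm
    refine Finset.sum_eq_zero fun x _ => ?_
    rw [insS_lt (by omega : i + 1 < m + 2), insS_lt (by omega : i < m + 2), if_neg hc, mul_zero]

theorem DD (T : Dat ι) {i m : ℕ} (h : i ≤ m) (f : F ι) :
    Dl T i (Dl T m f) = Dl T (m + 2) (Dl T i f) := by
  funext σ
  simp only [Dl]
  rw [delS_ge (by omega : i ≤ m + 1), delS_ge h, delS_lt (by omega : i + 1 < m + 2),
    delS_lt (by omega : i < m + 2), del_del h, show m + 1 + 2 = m + 2 + 1 by omega]
  by_cases hc : σ (i + 1) = T.rev (σ i)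
  · by_cases hd : σ (m + 2 + 1) = T.rev (σ (m + 2))
    · rw [if_pos hc, if_pos hd, if_pos hd, if_pos hc]
      ring
    · rw [if_pos hc, if_neg hd, if_neg hd, mul_zero]
  · by_cases hd : σ (m + 2 + 1) = T.rev (σ (m + 2))
    · rw [if_neg hc, if_pos hd, if_neg hc, mul_zero]
    · rw [if_neg hc, if_neg hd]

theorem DX (T : Dat ι) (A : Matrix (ι × ι) (ι × ι) ℂ) {i m : ℕ} (h : i ≤ m) (f : F ι) :
    Dl T i (Xl A m f) = Xl A (m + 2) (Dl T i f) := by
  funext σ
  simp only [Xl, Dl]
  have h1 : ∀ a b : ι, updS (m + 2) a b σ (i + 1) = σ (i + 1) := fun a b =>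
    updS_ne (by omega) (by omega) a b σ
  have h2 : ∀ a b : ι, updS (m + 2) a b σ i = σ i := fun a b =>
    updS_ne (by omega) (by omega) a b σ
  by_cases hc : σ (i + 1) = T.rev (σ i)
  · rw [if_pos hc, Finset.mul_sum]
    refine Finset.sum_congr rfl fun x _ => ?_
    rw [h1, h2, if_pos hc, delS_ge h, delS_ge (by omega : i ≤ m + 1), upd_del h,
      show m + 1 + 2 = m + 2 + 1 by omega]
    ring
  · rw [if_neg hc]
    symm
    refine Finset.sum_eq_zero fun x _ => ?_
    rw [h1, h2, if_neg hc, mul_zero]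

theorem XB (T : Dat ι) (A : Matrix (ι × ι) (ι × ι) ℂ) {i j : ℕ} (h : i + 2 ≤ j) (f : F ι) :
    Xl A i (Bl T j f) = Bl T j (Xl A i f) := by
  funext σ
  simp only [Bl, Xl, Finset.mul_sum]
  rw [Finset.sum_comm]
  refine Finset.sum_congr rfl fun y _ => Finset.sum_congr rfl fun x _ => ?_
  rw [ins_upd h, insS_lt (by omega : i < j), insS_lt (by omega : i + 1 < j)]
  ring

theorem XD (T : Dat ι) (A : Matrix (ι × ι) (ι × ι) ℂ) {i j : ℕ} (h : i + 2 ≤ j) (f : F ι) :
    Xl A i (Dl T j f) = Dl T j (Xl A i f) := by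
  funext σ
  simp only [Xl, Dl]
  have h1 : ∀ a b : ι, updS i a b σ (j + 1) = σ (j + 1) := fun a b =>
    updS_ne (by omega) (by omega) a b σ
  have h2 : ∀ a b : ι, updS i a b σ j = σ j := fun a b =>
    updS_ne (by omega) (by omega) a b σ
  by_cases hc : σ (j + 1) = T.rev (σ j)
  · rw [if_pos hc, Finset.mul_sum]
    refine Finset.sum_congr rfl fun x _ => ?_
    rw [h1, h2, if_pos hc, delS_lt (by omega : i < j), delS_lt (by omega : i + 1 < j), del_upd h]
    ring
  · rw [if_neg hc]
    refine Finset.sum_eq_zero fun x _ => ?_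
    rw [h1, h2, if_neg hc, mul_zero]

theorem XX (A B : Matrix (ι × ι) (ι × ι) ℂ) {i j : ℕ} (h : i + 2 ≤ j) (f : F ι) :
    Xl A i (Xl B j f) = Xl B j (Xl A i f) := by
  funext σ
  simp only [Xl, Finset.mul_sum]
  rw [Finset.sum_comm]
  refine Finset.sum_congr rfl fun y _ => Finset.sum_congr rfl fun x _ => ?_
  rw [upd_upd h, updS_ne (by omega : j ≠ i) (by omega : j ≠ i + 1),
    updS_ne (by omega : j + 1 ≠ i) (by omega : j + 1 ≠ i + 1),
    updS_ne (by omega : i ≠ j) (by omega : i ≠ j + 1),
    updS_ne (by omega : i + 1 ≠ j) (by omega : i + 1 ≠ j + 1)]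
  ring

end

/-! ### directions -/

theorem dir_ge {i j : ℕ} (b : Bool) (A : Front) (h : i ≤ j) :
    ((Piece.birth i b).act A).dir (j + 2) = A.dir j := by
  simp only [Piece.act]
  rw [if_neg (by omega), if_neg (by omega), if_neg (by omega)]
  rfl

theorem dir_lt {i j : ℕ} (b : Bool) (A : Front) (h : j < i) :
    ((Piece.birth i b).act A).dir j = A.dir j := by
  simp only [Piece.act]
  rw [if_pos h]

theorem dir_dge {i j : ℕ} (A : Front) (h : i ≤ j) :
    ((Piece.death i).act A).dir j = A.dir (j + 2) := by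
  simp only [Piece.act, up]
  rw [if_neg (by omega)]

theorem dir_dlt {i j : ℕ} (A : Front) (h : j < i) :
    ((Piece.death i).act A).dir j = A.dir j := by
  simp only [Piece.act, up]
  rw [if_pos h]

theorem dir_pos {i j : ℕ} (A : Front) (h1 : j ≠ i) (h2 : j ≠ i + 1) :
    ((Piece.pos i).act A).dir j = A.dir j := by
  simp only [Piece.act, sw]
  rw [if_neg h1, if_neg h2]

theorem dir_neg {i j : ℕ} (A : Front) (h1 : j ≠ i) (h2 : j ≠ i + 1) :
    ((Piece.neg i).act A).dir j = A.dir j := by
  simp only [Piece.act, sw]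
  rw [if_neg h1, if_neg h2]

theorem s_ex : Pool.Agent.N566.VV.S_EX := by
  intro ι _ _ T p q h A f
  cases p with
  | birth i b =>
    cases q with
    | birth j b' =>
      have h : i ≤ j := h
      exact BB T h f
    | death j =>
      have h : i ≤ j := h
      exact BD T h f
    | pos j =>
      have h : i ≤ j := h
      show Bl T i ((if ((Piece.birth i b).act A).dir (j + 2) =
          ((Piece.birth i b).act A).dir (j + 2 + 1) then T.k else T.k') • Xl T.P (j + 2) f) =
        (if A.dir j = A.dir (j + 1) then T.k else T.k') • Xl T.P j (Bl T i f)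
      rw [show j + 2 + 1 = (j + 1) + 2 by omega, dir_ge b A h, dir_ge b A (by omega : i ≤ j + 1),
        Bl_smul, BX T _ h]
    | neg j =>
      have h : i ≤ j := h
      show Bl T i ((if ((Piece.birth i b).act A).dir (j + 2) =
          ((Piece.birth i b).act A).dir (j + 2 + 1) then T.k' else T.k) • Xl T.Q (j + 2) f) =
        (if A.dir j = A.dir (j + 1) then T.k' else T.k) • Xl T.Q j (Bl T i f)
      rw [show j + 2 + 1 = (j + 1) + 2 by omega, dir_ge b A h, dir_ge b A (by omega : i ≤ j + 1),
        Bl_smul, BX T _ h]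
  | death i =>
    cases q with
    | birth j b' =>
      have h : i + 2 ≤ j := h
      obtain ⟨m, rfl⟩ : ∃ m, j = m + 2 := ⟨j - 2, by omega⟩
      exact DB T (by omega : i ≤ m) f
    | death j =>
      have h : i + 2 ≤ j := h
      obtain ⟨m, rfl⟩ : ∃ m, j = m + 2 := ⟨j - 2, by omega⟩
      exact DD T (by omega : i ≤ m) f
    | pos j =>
      have h : i + 2 ≤ j := h
      obtain ⟨m, rfl⟩ : ∃ m, j = m + 2 := ⟨j - 2, by omega⟩
      have h' : i ≤ m := by omega
      show Dl T i ((if ((Piece.death i).act A).dir m =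
          ((Piece.death i).act A).dir (m + 1) then T.k else T.k') • Xl T.P m f) =
        (if A.dir (m + 2) = A.dir (m + 2 + 1) then T.k else T.k') • Xl T.P (m + 2) (Dl T i f)
      rw [dir_dge A h', dir_dge A (by omega : i ≤ m + 1), Dl_smul, DX T _ h',
        show m + 1 + 2 = m + 2 + 1 by omega]
    | neg j =>
      have h : i + 2 ≤ j := h
      obtain ⟨m, rfl⟩ : ∃ m, j = m + 2 := ⟨j - 2, by omega⟩
      have h' : i ≤ m := by omega
      show Dl T i ((if ((Piece.death i).act A).dir m =
          ((Piece.death i).act A).dir (m + 1) then T.k' else T.k) • Xl T.Q m f) =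
        (if A.dir (m + 2) = A.dir (m + 2 + 1) then T.k' else T.k) • Xl T.Q (m + 2) (Dl T i f)
      rw [dir_dge A h', dir_dge A (by omega : i ≤ m + 1), Dl_smul, DX T _ h',
        show m + 1 + 2 = m + 2 + 1 by omega]
  | pos i =>
    cases q with
    | birth j b' =>
      have h : i + 2 ≤ j := h
      show (if A.dir i = A.dir (i + 1) then T.k else T.k') • Xl T.P i (Bl T j f) =
        Bl T j ((if ((Piece.birth j b').act A).dir i = ((Piece.birth j b').act A).dir (i + 1)
          then T.k else T.k') • Xl T.P i f)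
      rw [dir_lt b' A (by omega : i < j), dir_lt b' A (by omega : i + 1 < j), Bl_smul, XB T _ h]
    | death j =>
      have h : i + 2 ≤ j := h
      show (if A.dir i = A.dir (i + 1) then T.k else T.k') • Xl T.P i (Dl T j f) =
        Dl T j ((if ((Piece.death j).act A).dir i = ((Piece.death j).act A).dir (i + 1)
          then T.k else T.k') • Xl T.P i f)
      rw [dir_dlt A (by omega : i < j), dir_dlt A (by omega : i + 1 < j), Dl_smul, XD T _ h]
    | pos j =>
      have h : i + 2 ≤ j := h
      show (if A.dir i = A.dir (i + 1) then T.k else T.k') • Xl T.P i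
          ((if ((Piece.pos i).act A).dir j = ((Piece.pos i).act A).dir (j + 1)
            then T.k else T.k') • Xl T.P j f) =
        (if A.dir j = A.dir (j + 1) then T.k else T.k') • Xl T.P j
          ((if ((Piece.pos j).act A).dir i = ((Piece.pos j).act A).dir (i + 1)
            then T.k else T.k') • Xl T.P i f)
      rw [dir_pos A (by omega : j ≠ i) (by omega : j ≠ i + 1),
        dir_pos A (by omega : j + 1 ≠ i) (by omega : j + 1 ≠ i + 1),
        dir_pos A (by omega : i ≠ j) (by omega : i ≠ j + 1),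
        dir_pos A (by omega : i + 1 ≠ j) (by omega : i + 1 ≠ j + 1),
        Xl_smul, Xl_smul, XX _ _ h, smul_comm]
    | neg j =>
      have h : i + 2 ≤ j := h
      show (if A.dir i = A.dir (i + 1) then T.k else T.k') • Xl T.P i
          ((if ((Piece.pos i).act A).dir j = ((Piece.pos i).act A).dir (j + 1)
            then T.k' else T.k) • Xl T.Q j f) =
        (if A.dir j = A.dir (j + 1) then T.k' else T.k) • Xl T.Q j
          ((if ((Piece.neg j).act A).dir i = ((Piece.neg j).act A).dir (i + 1)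
            then T.k else T.k') • Xl T.P i f)
      rw [dir_pos A (by omega : j ≠ i) (by omega : j ≠ i + 1),
        dir_pos A (by omega : j + 1 ≠ i) (by omega : j + 1 ≠ i + 1),
        dir_neg A (by omega : i ≠ j) (by omega : i ≠ j + 1),
        dir_neg A (by omega : i + 1 ≠ j) (by omega : i + 1 ≠ j + 1),
        Xl_smul, Xl_smul, XX _ _ h, smul_comm]
  | neg i =>
    cases q with
    | birth j b' =>
      have h : i + 2 ≤ j := h
      show (if A.dir i = A.dir (i + 1) then T.k' else T.k) • Xl T.Q i (Bl T j f) =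
        Bl T j ((if ((Piece.birth j b').act A).dir i = ((Piece.birth j b').act A).dir (i + 1)
          then T.k' else T.k) • Xl T.Q i f)
      rw [dir_lt b' A (by omega : i < j), dir_lt b' A (by omega : i + 1 < j), Bl_smul, XB T _ h]
    | death j =>
      have h : i + 2 ≤ j := h
      show (if A.dir i = A.dir (i + 1) then T.k' else T.k) • Xl T.Q i (Dl T j f) =
        Dl T j ((if ((Piece.death j).act A).dir i = ((Piece.death j).act A).dir (i + 1)
          then T.k' else T.k) • Xl T.Q i f)
      rw [dir_dlt A (by omega : i < j), dir_dlt A (by omega : i + 1 < j), Dl_smul, XD T _ h]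
    | pos j =>
      have h : i + 2 ≤ j := h
      show (if A.dir i = A.dir (i + 1) then T.k' else T.k) • Xl T.Q i
          ((if ((Piece.neg i).act A).dir j = ((Piece.neg i).act A).dir (j + 1)
            then T.k else T.k') • Xl T.P j f) =
        (if A.dir j = A.dir (j + 1) then T.k else T.k') • Xl T.P j
          ((if ((Piece.pos j).act A).dir i = ((Piece.pos j).act A).dir (i + 1)
            then T.k' else T.k) • Xl T.Q i f)
      rw [dir_neg A (by omega : j ≠ i) (by omega : j ≠ i + 1),
        dir_neg A (by omega : j + 1 ≠ i) (by omega : j + 1 ≠ i + 1),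
        dir_pos A (by omega : i ≠ j) (by omega : i ≠ j + 1),
        dir_pos A (by omega : i + 1 ≠ j) (by omega : i + 1 ≠ j + 1),
        Xl_smul, Xl_smul, XX _ _ h, smul_comm]
    | neg j =>
      have h : i + 2 ≤ j := h
      show (if A.dir i = A.dir (i + 1) then T.k' else T.k) • Xl T.Q i
          ((if ((Piece.neg i).act A).dir j = ((Piece.neg i).act A).dir (j + 1)
            then T.k' else T.k) • Xl T.Q j f) =
        (if A.dir j = A.dir (j + 1) then T.k' else T.k) • Xl T.Q j
          ((if ((Piece.neg j).act A).dir i = ((Piece.neg j).act A).dir (i + 1)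
            then T.k' else T.k) • Xl T.Q i f)
      rw [dir_neg A (by omega : j ≠ i) (by omega : j ≠ i + 1),
        dir_neg A (by omega : j + 1 ≠ i) (by omega : j + 1 ≠ i + 1),
        dir_neg A (by omega : i ≠ j) (by omega : i ≠ j + 1),
        dir_neg A (by omega : i + 1 ≠ j) (by omega : i + 1 ≠ j + 1),
        Xl_smul, Xl_smul, XX _ _ h, smul_comm]

end Pool.Agent.N738.VV
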